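import Pool.Agent.Helper28.Ram.Goals
import Pool.Agent.Helper78.Mpc.MMain

/-!
# Packet PAR (helper28, RAM): arithmetic of the parameters
-/

namespace Pool.Agent.Helper69.Ram

open Pool.Agent.Helper65.LinSpace Pool.Agent.Helper78.Mpc Pool.Agent.Helper28.Ram Finset Filter

theorem gR_pos (n : ℕ) : 1 ≤ gR n := Nat.le_add_left _ _

theorem gR_le (n : ℕ) : gR n ≤ n + 1 := by
  unfold gR
  have h1 : Nat.sqrt (n / ll n) ≤ n / ll n := Nat.sqrt_le_self _
  have h2 : n / ll n ≤ n := Nat.div_le_self _ _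
  omega

theorem gR_sq (n : ℕ) : (gR n + 1) * (gR n + 1) ≤ 2 * (n / ll n) + 8 := by
  unfold gR
  have h1 : Nat.sqrt (n / ll n) * Nat.sqrt (n / ll n) ≤ n / ll n := Nat.sqrt_le _
  generalize Nat.sqrt (n / ll n) = s at *
  generalize n / ll n = L at *
  rcases le_or_gt s 4 with h | h
  · interval_cases s <;> omega
  · nlinarith

theorem pR_spec (n : ℕ) : (pR n).Prime ∧ (n + 2) ^ 4 < pR n ∧ pR n ≤ 2 * (n + 2) ^ 4 :=
  nextPrime_spec (by positivity)

theorem pR_le (n : ℕ) : pR n ≤ 2 ^ (4 * ll n + 5) := by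
  have h1 := (pR_spec n).2.2
  have h2 := lt_two_pow_ll n
  have h3 : n + 2 ≤ 2 ^ (ll n + 1) := by
    rw [pow_succ]
    omega
  have h4 : (n + 2) ^ 4 ≤ (2 ^ (ll n + 1)) ^ 4 := Nat.pow_le_pow_left h3 4
  rw [← pow_mul] at h4
  have h5 : 2 ^ (4 * ll n + 5) = 2 * 2 ^ ((ll n + 1) * 4) := by
    rw [← pow_succ']
    congr 1
    ring
  rw [h5]
  omega

section

variable {g S : ℕ} {m : Mach}

theorem sig_le (hg : 1 ≤ g) (h : m.σ = min S (g - 1) + 1) : m.σ ≤ g := by
  rw [h]
  have := min_le_right S (g - 1)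
  omega

theorem sig_b_le (hb : m.b = g / m.σ) : m.σ * m.b ≤ g := by
  rw [hb]
  exact Nat.mul_div_le _ _

theorem b_le (hb : m.b = g / m.σ) : m.b ≤ g := by
  rw [hb]
  exact Nat.div_le_self _ _

end

theorem PAR1 : PAR1_stmt := by
  intro n S m hσ hG hb
  have hg := gR_pos n
  have hgn := gR_le n
  have h1 := sig_le hg hσ
  have h2 := sig_b_le hb
  have h3 := b_le hb
  have hp := (pR_spec n).2.1
  have hp2 : (n + 2) * (n + 2) * ((n + 2) * (n + 2)) < pR n := by
    have e : (n + 2) ^ 4 = (n + 2) * (n + 2) * ((n + 2) * (n + 2)) := by ring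
    omega
  have hbig : (n + 1) * (n + 1) * (n + 2) + (n + 1) < (n + 2) * (n + 2) * ((n + 2) * (n + 2)) := by
    nlinarith [sq_nonneg n]
  have hsmall : n + 2 ≤ (n + 2) * (n + 2) * ((n + 2) * (n + 2)) := by
    have : 1 ≤ (n + 2) * ((n + 2) * (n + 2)) := Nat.one_le_iff_ne_zero.2 (by positivity)
    nlinarith
  refine ⟨⟨?_, ?_, ?_, ?_, ?_⟩, ?_⟩
  · unfold Mach.wd JR
    rw [hG]
    have e : m.σ * (2 * m.b + 1) = 2 * (m.σ * m.b) + m.σ := by ring
    have h4 : m.σ * (2 * m.b + 1) ≤ 3 * (gR n + 1) := by omega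
    calc (gR n + 1) * (m.σ * (2 * m.b + 1)) ≤ (gR n + 1) * (3 * (gR n + 1)) :=
          Nat.mul_le_mul_left _ h4
      _ = _ := by ring
  · unfold JR
    rw [hG]
    nlinarith
  · unfold JR
    calc (gR n + 1) * (3 * m.σ) ≤ (gR n + 1) * (3 * (gR n + 1)) :=
          Nat.mul_le_mul_left _ (by omega)
      _ = _ := by ring
  · rw [hG]
    omega
  · have : 16 ≤ (n + 2) * (n + 2) * ((n + 2) * (n + 2)) := by
      have h4 : 2 * 2 ≤ (n + 2) * (n + 2) := Nat.mul_le_mul (by omega) (by omega)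
      exact Nat.mul_le_mul h4 h4
    omega
  · rw [hG]
    have h5 : m.σ * (m.b ^ 2 * (gR n + 1) + 1) ≤ gR n * gR n * (gR n + 1) + gR n := by
      have e : m.σ * (m.b ^ 2 * (gR n + 1) + 1) =
          (m.σ * m.b) * m.b * (gR n + 1) + m.σ := by ring
      rw [e]
      exact Nat.add_le_add (Nat.mul_le_mul_right _ (Nat.mul_le_mul h2 h3)) h1
    have h6 : gR n * gR n * (gR n + 1) + gR n ≤ (n + 1) * (n + 1) * (n + 2) + (n + 1) :=
      Nat.add_le_add (Nat.mul_le_mul (Nat.mul_le_mul hgn hgn) (by omega)) hgn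
    omega

theorem prod_cnt (m : Mach) (p K : ℕ) : ∏ l ∈ range (K * (m.G + 2)), m.cnt p l =
    (2 ^ (m.σ * (m.b + 1)) * (2 * m.b + 1) * ((p - 1) * (2 * m.G + 3)) ^ (m.G + 1)) ^ K := by
  induction K with
  | zero => simp
  | succ K ih =>
    rw [add_mul, one_mul, prod_range_add, ih, pow_succ]
    congr 1
    rw [show m.G + 2 = (m.G + 1) + 1 by ring, prod_range_succ', mul_comm]
    congr 1
    · unfold Mach.cnt
      simp [ifz]
    · refine (prod_congr rfl (g := fun _ => (p - 1) * (2 * m.G + 3)) ?_).trans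
        (by rw [prod_const, card_range, pow_succ])
      intro l hl
      have hl' := mem_range.1 hl
      unfold Mach.cnt
      have e : (K * (m.G + 1 + 1) + (l + 1)) % (m.G + 2) = l + 1 := by
        rw [show m.G + 1 + 1 = m.G + 2 by ring, mul_comm, Nat.mul_add_mod]
        exact Nat.mod_eq_of_lt (by omega)
      rw [e]
      simp [ifz]

theorem PAR2 : PAR2_stmt := by
  intro x S m hσ hG hb
  have key : ∀ t : ℕ, t ≤ 1890 * (Nat.log 2 x + 1) → 2 ^ t ≤ CR x := by
    intro t ht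
    refine (Nat.pow_le_pow_right (by norm_num) ht).trans ((two_pow_log_le x 1890).trans ?_)
    exact Nat.pow_le_pow_right (by omega) (by norm_num)
  generalize Nat.log 2 x = n at *
  have hg := gR_pos n
  have hgn := gR_le n
  have h1 := sig_le hg hσ
  have h2 := sig_b_le hb
  have h3 := b_le hb
  have hl := ll_pos n
  have hln := ll_le n
  have hsq := gR_sq n
  have hp := pR_le n
  have hW := Nat.div_mul_le_self n (ll n)
  have hsq2 : (gR n + 1) * (gR n + 1) * ll n ≤ 10 * (n + 1) := by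
    calc (gR n + 1) * (gR n + 1) * ll n ≤ (2 * (n / ll n) + 8) * ll n :=
          Nat.mul_le_mul_right _ hsq
      _ = 2 * (n / ll n * ll n) + 8 * ll n := by ring
      _ ≤ _ := by omega
  refine ⟨?_, ?_⟩
  · refine (Nat.pow_le_pow_left hp _).trans ?_
    rw [← pow_mul]
    apply key
    unfold JR
    calc (4 * ll n + 5) * (7 * (3 * ((gR n + 1) * (gR n + 1))))
        ≤ (9 * ll n) * (7 * (3 * ((gR n + 1) * (gR n + 1)))) :=
          Nat.mul_le_mul_right _ (by omega)
      _ = 189 * ((gR n + 1) * (gR n + 1) * ll n) := by ring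
      _ ≤ 1890 * (n + 1) := by omega
  · rw [prod_cnt, hG]
    have hA : 2 ^ (m.σ * (m.b + 1)) * (2 * m.b + 1) ≤ 2 ^ (4 * gR n) := by
      have e : m.σ * (m.b + 1) = m.σ * m.b + m.σ := by ring
      have h4 : m.σ * (m.b + 1) ≤ 2 * gR n := by omega
      have h5 : 2 * m.b + 1 ≤ 2 ^ (2 * gR n) := by
        have h6 : 2 * gR n < 2 ^ (2 * gR n) := Nat.lt_two_pow_self
        omega
      calc 2 ^ (m.σ * (m.b + 1)) * (2 * m.b + 1) ≤ 2 ^ (2 * gR n) * 2 ^ (2 * gR n) :=
            Nat.mul_le_mul (Nat.pow_le_pow_right (by norm_num) h4) h5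
        _ = 2 ^ (4 * gR n) := by
            rw [← pow_add]
            congr 1
            ring
    have hB : (pR n - 1) * (2 * gR n + 3) ≤ 2 ^ (13 * ll n) := by
      have h4 : 2 * gR n + 3 ≤ 2 ^ (ll n + 3) := by
        have := lt_two_pow_ll n
        rw [pow_add]
        omega
      calc (pR n - 1) * (2 * gR n + 3) ≤ 2 ^ (4 * ll n + 5) * 2 ^ (ll n + 3) :=
            Nat.mul_le_mul ((Nat.sub_le _ _).trans hp) h4
        _ = 2 ^ (5 * ll n + 8) := by
            rw [← pow_add]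
            congr 1
            ring
        _ ≤ _ := Nat.pow_le_pow_right (by norm_num) (by omega)
    have hC : 2 ^ (m.σ * (m.b + 1)) * (2 * m.b + 1) * ((pR n - 1) * (2 * gR n + 3)) ^ (gR n + 1) ≤
        2 ^ (4 * gR n + 13 * ll n * (gR n + 1)) := by
      refine (Nat.mul_le_mul hA (Nat.pow_le_pow_left hB (gR n + 1))).trans (le_of_eq ?_)
      rw [← pow_mul, ← pow_add]
    refine (Nat.pow_le_pow_left hC _).trans ?_
    rw [← pow_mul]
    apply key
    have h7 : (4 * gR n + 13 * ll n * (gR n + 1)) * gR n ≤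
        17 * ((gR n + 1) * (gR n + 1) * ll n) := by
      have h8 : 4 * gR n ≤ 4 * (gR n + 1) * ll n := by nlinarith
      calc (4 * gR n + 13 * ll n * (gR n + 1)) * gR n
          ≤ (4 * (gR n + 1) * ll n + 13 * ll n * (gR n + 1)) * (gR n + 1) :=
            Nat.mul_le_mul (Nat.add_le_add_right h8 _) (by omega)
        _ = _ := by ring
    omega

theorem PAR4 : PAR4_stmt := by
  intro c
  filter_upwards [ev_ll_cube ((8 * c + 8) * (8 * c + 8)), eventually_ge_atTop (c + 20)] with n h1 h2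
  intro S hS
  have hl := ll_pos n
  have hL : (8 * c + 8) * (8 * c + 8) ≤ n / ll n := by
    rw [Nat.le_div_iff_mul_le hl]
    refine le_trans (Nat.mul_le_mul_left _ ?_) h1
    nlinarith [Nat.mul_le_mul hl hl]
  have hs : 8 * c + 8 ≤ Nat.sqrt (n / ll n) := Nat.le_sqrt.2 hL
  have hs2 : Nat.sqrt (n / ll n) * Nat.sqrt (n / ll n) ≤ n / ll n := Nat.sqrt_le _
  have hs3 : Nat.sqrt (n / ll n) ≤ n / ll n := Nat.sqrt_le_self _
  have hLn : n / ll n ≤ n := Nat.div_le_self _ _
  have hSs : S ≤ Nat.sqrt (n / ll n) := by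
    unfold gR at hS
    omega
  refine ⟨?_, ?_, ?_⟩
  · unfold LW
    refine le_trans ?_ hs2
    generalize Nat.sqrt (n / ll n) = s at *
    calc c * (4 * S + 4) ≤ c * (4 * s + 4) := Nat.mul_le_mul_left _ (by omega)
      _ ≤ s * s := by nlinarith
  · have e : 2 ^ (2 * ll n) = 2 ^ ll n * 2 ^ ll n := by rw [two_mul, pow_add]
    have hl2 := lt_two_pow_ll n
    have h4 : (n + 1) * (n + 1) ≤ 2 ^ (2 * ll n) := by
      rw [e]
      exact Nat.mul_le_mul hl2 hl2
    refine le_trans ?_ h4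
    unfold LW
    nlinarith
  · intro x hx
    have h5 : S + 1 ≤ Nat.log 2 x + 1 := by
      rw [hx]
      omega
    refine (Nat.pow_le_pow_right (by norm_num) h5).trans ?_
    have h6 := two_pow_log_le x 1
    rw [one_mul] at h6
    refine h6.trans ?_
    exact Nat.pow_le_pow_right (by omega) (by norm_num)

end Pool.Agent.Helper69.Ram
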